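import Pool.Agent.X51.HS.Ass

/-!
# Associated primes of homological shift ideals of powers of polymatroidal ideals

For every polymatroidal ideal `I` of `S = K[x_1, …, x_n]` and all `k ≥ i > 0`,
`Ass HS_i(I^k) ⊆ Ass HS_i(I^(k+1))`.
-/

set_option autoImplicit false

namespace Pool.Agent.Results.MP_be6357_al.Persistence

open Finset

universe u

variable {n : ℕ} {K : Type u} [Field K]

/-- `I` is polymatroidal: it is generated by the monomials `x^u`, `u ∈ B`, for a set `B` of exponent
vectors of the same degree `d` with the exchange property: if `u, v ∈ B` and `u_p > v_p` then there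
is `q` with `u_q < v_q` such that the exponent vector of `x_q x^u / x_p` is in `B`.
(The zero ideal, `B = ∅`, is allowed.) -/
def IsPolymatroidal (I : Ideal (MvPolynomial (Fin n) K)) : Prop :=
  ∃ (B : Set (Fin n →₀ ℕ)) (d : ℕ), (∀ u ∈ B, ∑ x, u x = d) ∧
    (∀ u ∈ B, ∀ v ∈ B, ∀ p, v p < u p →
      ∃ q, u q < v q ∧ u - Finsupp.single p 1 + Finsupp.single q 1 ∈ B) ∧
    I = Ideal.span ((fun u => MvPolynomial.monomial u (1 : K)) '' B)

/-- exponent vector of the squarefree monomial `∏_{j ∈ T} x_j` -/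
noncomputable def ind (T : Finset (Fin n)) : Fin n →₀ ℕ :=
  Finsupp.equivFunOnFinite.symm (fun v => if v ∈ T then 1 else 0)

/-- The differential of the Koszul complex of `x_1, …, x_n`. A chain `∑_T f_T e_T` is given by its
coefficients `f T`, `T` a set of variables; `koszulD f T` is the coefficient of `e_T` in its
boundary. -/
noncomputable def koszulD (f : Finset (Fin n) → MvPolynomial (Fin n) K) (T : Finset (Fin n)) :
    MvPolynomial (Fin n) K :=
  ∑ j ∈ Tᶜ, (-1) ^ (T.filter (· < j)).card * (MvPolynomial.X j * f (insert j T))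

/-- `Tor_i^S(K, J)_a ≠ 0`, where `Tor_i^S(K, J)` is computed as the `i`-th homology of the Koszul
complex of `x_1, …, x_n` with coefficients in `J` (`e_T` has multidegree `1_T`): there is an
`i`-cycle with coefficients in `J`, homogeneous of multidegree `a`, which is not the boundary of an
`(i + 1)`-chain with coefficients in `J`. -/
def TorNe (J : Ideal (MvPolynomial (Fin n) K)) (i : ℕ) (a : Fin n →₀ ℕ) : Prop :=
  ∃ f : Finset (Fin n) → MvPolynomial (Fin n) K,
    (∀ T, f T ∈ J) ∧ (∀ T, ∀ c ∈ (f T).support, c + ind T = a) ∧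
    (∀ T, T.card ≠ i → f T = 0) ∧ (∀ T, koszulD f T = 0) ∧
    ¬ ∃ g : Finset (Fin n) → MvPolynomial (Fin n) K,
      (∀ T, g T ∈ J) ∧ (∀ T, T.card ≠ i + 1 → g T = 0) ∧ ∀ T, koszulD g T = f T

/-- The `i`-th homological shift ideal `HS_i(J) = (x^a : Tor_i^S(K, J)_a ≠ 0)`. -/
noncomputable def HS (i : ℕ) (J : Ideal (MvPolynomial (Fin n) K)) :
    Ideal (MvPolynomial (Fin n) K) :=
  Ideal.span ((fun a => MvPolynomial.monomial a (1 : K)) '' {a | TorNe J i a})

/-- `Ass J`, the set of associated primes of `S / J` -/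
def Ass (J : Ideal (MvPolynomial (Fin n) K)) : Set (Ideal (MvPolynomial (Fin n) K)) :=
  associatedPrimes (MvPolynomial (Fin n) K) (MvPolynomial (Fin n) K ⧸ J)

/-- For every field `K`, every `n`, every polymatroidal ideal `I` of `K[x_1, …, x_n]` and all
`k ≥ i > 0`: `Ass HS_i(I^k) ⊆ Ass HS_i(I^(k+1))`. -/
theorem result : ∀ (K : Type u) [Field K] (n : ℕ) (I : Ideal (MvPolynomial (Fin n) K)),
    IsPolymatroidal I → ∀ i k : ℕ, 0 < i → i ≤ k → Ass (HS i (I ^ k)) ⊆ Ass (HS i (I ^ (k + 1))) := by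
  rintro K _ n I ⟨B, d, hd, hex, hI⟩ i k hi hik
  exact Pool.Agent.X51.HS.persist hI hex hd i k hi hik

end Pool.Agent.Results.MP_be6357_al.Persistence
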